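import Mathlib

namespace Pool.Agent.Results.MP_5a03e9_nt.NotSyndetic

open Filter

/-- Upper Banach density: limsup of `|E ∩ [M,N)| / (N - M)` as `N - M → ∞`. -/
noncomputable def upperBanachDensity (E : Set ℕ) : ℝ :=
  Filter.limsup (fun q : ℕ × ℕ => ((E ∩ Set.Ico q.1 q.2).ncard : ℝ) / ((q.2 : ℝ) - (q.1 : ℝ)))
    (Filter.comap (fun q : ℕ × ℕ => (q.2 : ℤ) - (q.1 : ℤ)) Filter.atTop)

/-- Upper relative density of `A` in `E`: limsup of `|A ∩ [1,N]| / |E ∩ [1,N]|` as `N → ∞`. -/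
noncomputable def upperRelDensity (E A : Set ℕ) : ℝ :=
  Filter.limsup (fun N : ℕ => ((A ∩ Set.Icc 1 N).ncard : ℝ) / ((E ∩ Set.Icc 1 N).ncard : ℝ))
    Filter.atTop

/-- The difference set `A - A` as a set of integers. -/
def diffSet (A : Set ℕ) : Set ℤ := {z | ∃ a ∈ A, ∃ b ∈ A, z = (a : ℤ) - (b : ℤ)}

/-- A set of integers is syndetic if for some `L ≥ 1` every block of `L` consecutive integers
meets it. -/
def Syndetic (S : Set ℤ) : Prop := ∃ L : ℕ, 1 ≤ L ∧ ∀ m : ℤ, ∃ s ∈ S, m ≤ s ∧ s < m + (L : ℤ)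

theorem exists_window (E : Set ℕ) (hd : upperBanachDensity E = 0) (η : ℝ) (hη : 0 < η) :
    ∃ K : ℕ, ∀ M N : ℕ, M + K ≤ N → M < N →
      ((E ∩ Set.Ico M N).ncard : ℝ) ≤ η * ((N : ℝ) - (M : ℝ)) := by
  have hb : Filter.IsBoundedUnder (· ≤ ·)
      (Filter.comap (fun q : ℕ × ℕ => (q.2 : ℤ) - (q.1 : ℤ)) Filter.atTop)
      (fun q : ℕ × ℕ => ((E ∩ Set.Ico q.1 q.2).ncard : ℝ) / ((q.2 : ℝ) - (q.1 : ℝ))) := by
    refine ⟨1, ?_⟩
    rw [Filter.eventually_map]
    refine Filter.eventually_comap.2 ?_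
    filter_upwards [Filter.eventually_gt_atTop (0 : ℤ)] with z hz q hq
    have hlt : q.1 < q.2 := by
      have : (0 : ℤ) < (q.2 : ℤ) - (q.1 : ℤ) := by rw [hq]; exact hz
      omega
    have hpos : (0 : ℝ) < (q.2 : ℝ) - (q.1 : ℝ) := by
      have : (q.1 : ℝ) < (q.2 : ℝ) := by exact_mod_cast hlt
      linarith
    rw [div_le_one hpos]
    have h1 : (E ∩ Set.Ico q.1 q.2).ncard ≤ (Set.Ico q.1 q.2).ncard :=
      Set.ncard_le_ncard Set.inter_subset_right (Set.finite_Ico _ _)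
    have h2 : (Set.Ico q.1 q.2).ncard = q.2 - q.1 := by
      rw [← Finset.coe_Ico, Set.ncard_coe_finset, Nat.card_Ico]
    rw [h2] at h1
    have h3 : ((E ∩ Set.Ico q.1 q.2).ncard : ℝ) ≤ ((q.2 - q.1 : ℕ) : ℝ) := by exact_mod_cast h1
    rwa [Nat.cast_sub hlt.le] at h3
  have hlt : Filter.limsup
      (fun q : ℕ × ℕ => ((E ∩ Set.Ico q.1 q.2).ncard : ℝ) / ((q.2 : ℝ) - (q.1 : ℝ)))
      (Filter.comap (fun q : ℕ × ℕ => (q.2 : ℤ) - (q.1 : ℤ)) Filter.atTop) < η := by
    have : upperBanachDensity E < η := by rw [hd]; exact hη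
    exact this
  have hev := Filter.eventually_lt_of_limsup_lt hlt hb
  rw [Filter.eventually_comap, Filter.eventually_atTop] at hev
  obtain ⟨z, hz⟩ := hev
  refine ⟨z.toNat, fun M N hMN hlt => ?_⟩
  have h1 := hz ((N : ℤ) - (M : ℤ)) (by omega) (M, N) rfl
  have hpos : (0 : ℝ) < (N : ℝ) - (M : ℝ) := by
    have : (M : ℝ) < (N : ℝ) := by exact_mod_cast hlt
    linarith
  rw [div_lt_iff₀ hpos] at h1
  exact h1.le

/-- Elements of `E` having some element of `E` at distance in `[t, t+L)` below them. -/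
def bad (E : Set ℕ) (t L : ℕ) : Set ℕ := {x | x ∈ E ∧ ∃ y ∈ E, y + t ≤ x ∧ x < y + t + L}

open Classical in
theorem exists_shift (E : Set ℕ) (hd : upperBanachDensity E = 0) (L : ℕ) (hL : 1 ≤ L) (ε : ℝ)
    (hε : 0 < ε) (T : ℕ) :
    ∃ W : ℕ, 1 ≤ W ∧ ∀ N : ℕ, ∃ t ∈ Finset.Ico T (T + W),
      ((bad E t L ∩ Set.Icc 1 N).ncard : ℝ) ≤ ε * ((E ∩ Set.Icc 1 N).ncard : ℝ) := by
  have hL0 : (0 : ℝ) < (L : ℝ) := by exact_mod_cast hL
  obtain ⟨K, hK⟩ := exists_window E hd (ε / (2 * L)) (by positivity)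
  obtain ⟨W, hWK, hWL⟩ : ∃ W : ℕ, K ≤ W ∧ L ≤ W := ⟨max K L, le_max_left _ _, le_max_right _ _⟩
  have hW1 : 1 ≤ W := hL.trans hWL
  refine ⟨W, hW1, fun N => ?_⟩
  set X : Finset ℕ := (Finset.Icc 1 N).filter (fun x => x ∈ E) with hX
  have hXc : (E ∩ Set.Icc 1 N).ncard = X.card := by
    rw [← Set.ncard_coe_finset]
    congr 1
    ext x
    simp only [hX, Set.mem_inter_iff, Set.mem_Icc, Finset.coe_filter, Finset.mem_Icc]
    exact and_comm
  have hBc : ∀ t, (bad E t L ∩ Set.Icc 1 N).ncard = (X.filter (fun x => x ∈ bad E t L)).card := by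
    intro t
    rw [← Set.ncard_coe_finset]
    congr 1
    ext x
    rw [Finset.mem_coe, Finset.mem_filter, hX, Finset.mem_filter, Finset.mem_Icc]
    constructor
    · rintro ⟨h1, h2⟩
      exact ⟨⟨h2, h1.1⟩, h1⟩
    · rintro ⟨⟨h1, _⟩, h2⟩
      exact ⟨h2, h1⟩
  -- the double count
  have key : ∀ x ∈ X, (((Finset.Ico T (T + W)).filter (fun t => x ∈ bad E t L)).card : ℝ)
      ≤ ε * W := by
    intro x hx
    set M : ℕ := x + 1 - (T + W + L) with hM
    set Y : Finset ℕ := (Finset.Ico M (M + (W + L))).filter (fun y => y ∈ E) with hY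
    have hYc : (Y.card : ℝ) ≤ ε / (2 * L) * ((W : ℝ) + L) := by
      have h1 := hK M (M + (W + L)) (by omega) (by omega)
      have h2 : (E ∩ Set.Ico M (M + (W + L))).ncard = Y.card := by
        rw [← Set.ncard_coe_finset]
        congr 1
        ext y
        simp only [hY, Set.mem_inter_iff, Set.mem_Ico, Finset.coe_filter, Finset.mem_Ico]
        exact and_comm
      rw [h2] at h1
      push_cast at h1
      have h3 : (M : ℝ) + ((W : ℝ) + L) - M = (W : ℝ) + L := by ring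
      rwa [h3] at h1
    have hsub : (Finset.Ico T (T + W)).filter (fun t => x ∈ bad E t L) ⊆
        (Y ×ˢ Finset.range L).image (fun q => x - q.1 - q.2) := by
      intro t ht
      rw [Finset.mem_filter, Finset.mem_Ico] at ht
      obtain ⟨⟨ht1, ht2⟩, hxE, y, hyE, hy1, hy2⟩ := ht
      rw [Finset.mem_image]
      refine ⟨(y, x - y - t), ?_, ?_⟩
      · rw [Finset.mem_product, hY, Finset.mem_filter, Finset.mem_Ico, Finset.mem_range]
        refine ⟨⟨⟨?_, ?_⟩, hyE⟩, ?_⟩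
        · simp only [hM]; omega
        · simp only [hM]; omega
        · simp only; omega
      · simp only; omega
    have hcard : ((Finset.Ico T (T + W)).filter (fun t => x ∈ bad E t L)).card ≤ Y.card * L := by
      calc _ ≤ _ := Finset.card_le_card hsub
        _ ≤ (Y ×ˢ Finset.range L).card := Finset.card_image_le
        _ = Y.card * L := by rw [Finset.card_product, Finset.card_range]
    have hcard' : (((Finset.Ico T (T + W)).filter (fun t => x ∈ bad E t L)).card : ℝ)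
        ≤ Y.card * L := by exact_mod_cast hcard
    have hWL' : (L : ℝ) ≤ W := by exact_mod_cast hWL
    calc _ ≤ (Y.card : ℝ) * L := hcard'
      _ ≤ (ε / (2 * L) * ((W : ℝ) + L)) * L := by gcongr
      _ = ε * (((W : ℝ) + L) / 2) := by field_simp
      _ ≤ ε * W := by
        gcongr
        linarith
  have hsum : ∑ t ∈ Finset.Ico T (T + W), (((bad E t L ∩ Set.Icc 1 N).ncard : ℝ))
      ≤ ∑ t ∈ Finset.Ico T (T + W), ε * ((E ∩ Set.Icc 1 N).ncard : ℝ) := by
    have h1 : ∑ t ∈ Finset.Ico T (T + W), (((bad E t L ∩ Set.Icc 1 N).ncard : ℝ))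
        = ∑ x ∈ X, (((Finset.Ico T (T + W)).filter (fun t => x ∈ bad E t L)).card : ℝ) := by
      simp_rw [hBc, Finset.card_filter]
      push_cast
      rw [Finset.sum_comm]
    rw [h1, Finset.sum_const, Nat.card_Ico, hXc]
    calc _ ≤ ∑ x ∈ X, ε * W := Finset.sum_le_sum key
      _ = _ := by
        rw [Finset.sum_const, nsmul_eq_mul, nsmul_eq_mul]
        have : T + W - T = W := by omega
        rw [this]
        ring
  obtain ⟨t, ht, hle⟩ := Finset.exists_le_of_sum_le (by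
    rw [Finset.nonempty_Ico]; omega) hsum
  exact ⟨t, ht, hle⟩

theorem exists_shift_infinite (E : Set ℕ) (hd : upperBanachDensity E = 0) (L : ℕ) (hL : 1 ≤ L)
    (ε : ℝ) (hε : 0 < ε) (T : ℕ) (S : Set ℕ) (hS : S.Infinite) :
    ∃ t : ℕ, T ≤ t ∧ ∃ S' : Set ℕ, S' ⊆ S ∧ S'.Infinite ∧ ∀ N ∈ S',
      ((bad E t L ∩ Set.Icc 1 N).ncard : ℝ) ≤ ε * ((E ∩ Set.Icc 1 N).ncard : ℝ) := by
  obtain ⟨W, hW1, hW⟩ := exists_shift E hd L hL ε hε T
  choose f hf hf' using hW
  by_contra hcon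
  push Not at hcon
  have hfib : ∀ t ∈ Finset.Ico T (T + W), {N | N ∈ S ∧ f N = t}.Finite := by
    intro t ht
    by_contra hinf
    obtain ⟨N, ⟨_, hN2⟩, hN3⟩ := hcon t (Finset.mem_Ico.1 ht).1 {N | N ∈ S ∧ f N = t}
      (fun N hN => hN.1) hinf
    have := hf' N
    rw [hN2] at this
    exact absurd this (not_le.2 hN3)
  apply hS
  refine ((Finset.finite_toSet (Finset.Ico T (T + W))).biUnion hfib).subset ?_
  intro N hN
  rw [Set.mem_iUnion₂]
  exact ⟨f N, hf N, hN, rfl⟩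

/-- One step of the construction: the data is a shift, a scale and an infinite set of scales. -/
theorem exists_sequence (E : Set ℕ) (hd : upperBanachDensity E = 0) (ε : ℕ → ℝ)
    (hε : ∀ j, 0 < ε j) :
    ∃ (t : ℕ → ℕ) (N : ℕ → ℕ), StrictMono N ∧ (∀ j, N j < t (j + 1)) ∧
      ∀ i j, i ≤ j → ((bad E (t i) (i + 1) ∩ Set.Icc 1 (N j)).ncard : ℝ)
        ≤ ε i * ((E ∩ Set.Icc 1 (N j)).ncard : ℝ) := by
  have step : ∀ (j : ℕ) (s : {s : ℕ × ℕ × Set ℕ // s.2.2.Infinite}),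
      ∃ s' : {s : ℕ × ℕ × Set ℕ // s.2.2.Infinite},
        s'.1.2.2 ⊆ s.1.2.2 ∧ s.1.2.1 < s'.1.1 ∧ s'.1.2.1 ∈ s'.1.2.2 ∧ s.1.2.1 < s'.1.2.1 ∧
        ∀ M ∈ s'.1.2.2, ((bad E s'.1.1 (j + 1) ∩ Set.Icc 1 M).ncard : ℝ)
          ≤ ε j * ((E ∩ Set.Icc 1 M).ncard : ℝ) := by
    rintro j ⟨⟨t, N, S⟩, hS⟩
    obtain ⟨t', ht', S', hS'S, hS'inf, hS'⟩ := exists_shift_infinite E hd (j + 1) (by omega) (ε j)
      (hε j) (N + 1) S hS
    obtain ⟨N', hN'S, hN'⟩ := hS'inf.exists_gt N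
    exact ⟨⟨(t', N', S'), hS'inf⟩, hS'S, by simpa using ht', hN'S, hN', hS'⟩
  choose F hF1 hF2 hF3 hF4 hF5 using step
  let s : ℕ → {s : ℕ × ℕ × Set ℕ // s.2.2.Infinite} := fun j =>
    Nat.rec (F 0 ⟨(0, 0, Set.univ), Set.infinite_univ⟩) (fun j s => F (j + 1) s) j
  have hs0 : s 0 = F 0 ⟨(0, 0, Set.univ), Set.infinite_univ⟩ := rfl
  have hs : ∀ j, s (j + 1) = F (j + 1) (s j) := fun j => rfl
  have hmem : ∀ j, (s j).1.2.1 ∈ (s j).1.2.2 := by
    intro j
    cases j with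
    | zero => rw [hs0]; exact hF3 _ _
    | succ j => rw [hs]; exact hF3 _ _
  have hbd : ∀ j, ∀ M ∈ (s j).1.2.2, ((bad E (s j).1.1 (j + 1) ∩ Set.Icc 1 M).ncard : ℝ)
          ≤ ε j * ((E ∩ Set.Icc 1 M).ncard : ℝ) := by
    intro j
    cases j with
    | zero => rw [hs0]; exact hF5 _ _
    | succ j => rw [hs]; exact hF5 _ _
  have hanti : Antitone (fun j => (s j).1.2.2) :=
    antitone_nat_of_succ_le (fun j => by
      change (s (j + 1)).1.2.2 ⊆ (s j).1.2.2
      rw [hs]; exact hF1 _ _)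
  refine ⟨fun j => (s j).1.1, fun j => (s j).1.2.1, ?_, ?_, ?_⟩
  · exact strictMono_nat_of_lt_succ (fun j => by
      change (s j).1.2.1 < (s (j + 1)).1.2.1
      rw [hs]; exact hF4 _ _)
  · intro j
    change (s j).1.2.1 < (s (j + 1)).1.1
    rw [hs]; exact hF2 _ _
  · intro i j hij
    exact hbd i _ (hanti hij (hmem j))

/-- For every infinite set `E` of positive integers of upper Banach density zero and every
`δ < 1` there is `A ⊆ E` of upper relative density greater than `δ` in `E` whose difference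
set is not syndetic. -/
theorem result (E : Set ℕ) (hpos : ∀ n ∈ E, 1 ≤ n) (hinf : E.Infinite)
    (hd : upperBanachDensity E = 0) (δ : ℝ) (hδ : δ < 1) :
    ∃ A : Set ℕ, A ⊆ E ∧ δ < upperRelDensity E A ∧ ¬ Syndetic (diffSet A) := by
  set η : ℝ := (1 - δ) / 2 with hη
  have hη0 : 0 < η := by rw [hη]; linarith
  set ε : ℕ → ℝ := fun j => η / 2 / 2 ^ j with hεdef
  have hε : ∀ j, 0 < ε j := fun j => by rw [hεdef]; positivity
  obtain ⟨t, N, hNmono, hNt, hbd⟩ := exists_sequence E hd ε hε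
  have hEpos : ∀ y ∈ E, 0 < y := fun y hy => hpos y hy
  set A : Set ℕ := {x | x ∈ E ∧ ∀ i, x ∉ bad E (t i) (i + 1)} with hA
  have hAE : A ⊆ E := fun x hx => hx.1
  refine ⟨A, hAE, ?_, ?_⟩
  · -- density
    have hfin : ∀ (S : Set ℕ) (M : ℕ), (S ∩ Set.Icc 1 M).Finite := fun S M =>
      (Set.finite_Icc 1 M).subset Set.inter_subset_right
    have hsumε : ∀ j, ∑ i ∈ Finset.range (j + 1), ε i ≤ η := by
      intro j
      have : ∀ j, ∑ i ∈ Finset.range j, ε i = η - η / 2 ^ j := by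
        intro j
        induction j with
        | zero => simp
        | succ j ih =>
          rw [Finset.sum_range_succ, ih, hεdef]
          simp only [pow_succ]
          field_simp
          ring
      rw [this]
      have : 0 < η / 2 ^ (j + 1) := by positivity
      linarith
    have hlow : ∀ j, (1 - η) * ((E ∩ Set.Icc 1 (N j)).ncard : ℝ)
        ≤ ((A ∩ Set.Icc 1 (N j)).ncard : ℝ) := by
      intro j
      have hcov : E ∩ Set.Icc 1 (N j) ⊆ (A ∩ Set.Icc 1 (N j)) ∪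
          ⋃ i ∈ Finset.range (j + 1), (bad E (t i) (i + 1) ∩ Set.Icc 1 (N j)) := by
        rintro x ⟨hxE, hx1, hx2⟩
        by_cases hxA : x ∈ A
        · exact Or.inl ⟨hxA, hx1, hx2⟩
        · right
          have : ∃ i, x ∈ bad E (t i) (i + 1) := by
            by_contra hno
            push Not at hno
            exact hxA ⟨hxE, hno⟩
          obtain ⟨i, hi⟩ := this
          rw [Set.mem_iUnion₂]
          refine ⟨i, ?_, hi, hx1, hx2⟩
          rw [Finset.mem_range]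
          by_contra hij
          push Not at hij
          obtain ⟨i', rfl⟩ : ∃ i', i = i' + 1 := ⟨i - 1, by omega⟩
          have h1 := hNt i'
          have h2 : N j ≤ N i' := hNmono.monotone (by omega)
          obtain ⟨_, y, _, hy1, _⟩ := hi
          omega
      have h1 : (E ∩ Set.Icc 1 (N j)).ncard ≤ (A ∩ Set.Icc 1 (N j)).ncard +
          ∑ i ∈ Finset.range (j + 1), (bad E (t i) (i + 1) ∩ Set.Icc 1 (N j)).ncard := by
        have hfinU : (⋃ i ∈ Finset.range (j + 1),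
            (bad E (t i) (i + 1) ∩ Set.Icc 1 (N j))).Finite :=
          (Set.finite_Icc 1 (N j)).subset (by
            intro x hx
            rw [Set.mem_iUnion₂] at hx
            obtain ⟨i, _, hx⟩ := hx
            exact hx.2)
        calc _ ≤ _ := Set.ncard_le_ncard hcov ((hfin _ _).union hfinU)
          _ ≤ _ := Set.ncard_union_le _ _
          _ ≤ _ := by
            gcongr
            exact Finset.set_ncard_biUnion_le _ _
      have h2 : ((E ∩ Set.Icc 1 (N j)).ncard : ℝ) ≤ ((A ∩ Set.Icc 1 (N j)).ncard : ℝ) +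
          ∑ i ∈ Finset.range (j + 1), ((bad E (t i) (i + 1) ∩ Set.Icc 1 (N j)).ncard : ℝ) := by
        exact_mod_cast h1
      have h3 : ∑ i ∈ Finset.range (j + 1), ((bad E (t i) (i + 1) ∩ Set.Icc 1 (N j)).ncard : ℝ)
          ≤ η * ((E ∩ Set.Icc 1 (N j)).ncard : ℝ) := by
        calc _ ≤ ∑ i ∈ Finset.range (j + 1), ε i * ((E ∩ Set.Icc 1 (N j)).ncard : ℝ) := by
              apply Finset.sum_le_sum
              intro i hi
              rw [Finset.mem_range] at hi
              exact hbd i j (by omega)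
          _ = (∑ i ∈ Finset.range (j + 1), ε i) * ((E ∩ Set.Icc 1 (N j)).ncard : ℝ) := by
              rw [Finset.sum_mul]
          _ ≤ _ := by
              gcongr
              exact hsumε j
      linarith
    have hfreq : ∃ᶠ M : ℕ in Filter.atTop, 1 - η ≤
        ((A ∩ Set.Icc 1 M).ncard : ℝ) / ((E ∩ Set.Icc 1 M).ncard : ℝ) := by
      obtain ⟨x₀, hx₀⟩ := hinf.nonempty
      rw [Filter.frequently_atTop]
      intro a
      refine ⟨N (max a x₀), ?_, ?_⟩
      · exact (le_max_left a x₀).trans hNmono.le_apply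
      · have hx₀N : x₀ ≤ N (max a x₀) := (le_max_right a x₀).trans hNmono.le_apply
        have hpos' : 0 < (E ∩ Set.Icc 1 (N (max a x₀))).ncard := by
          rw [Set.ncard_pos (hfin _ _)]
          exact ⟨x₀, hx₀, hpos x₀ hx₀, hx₀N⟩
        have hpos'' : (0 : ℝ) < ((E ∩ Set.Icc 1 (N (max a x₀))).ncard : ℝ) := by
          exact_mod_cast hpos'
        rw [le_div_iff₀ hpos'']
        exact hlow _
    have hbdd : Filter.IsBoundedUnder (· ≤ ·) Filter.atTop
        (fun M : ℕ => ((A ∩ Set.Icc 1 M).ncard : ℝ) / ((E ∩ Set.Icc 1 M).ncard : ℝ)) := by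
      refine ⟨1, ?_⟩
      rw [Filter.eventually_map]
      refine Filter.Eventually.of_forall (fun M => ?_)
      apply div_le_one_of_le₀ _ (by positivity)
      have : (A ∩ Set.Icc 1 M).ncard ≤ (E ∩ Set.Icc 1 M).ncard :=
        Set.ncard_le_ncard (Set.inter_subset_inter_left _ hAE) (hfin _ _)
      exact_mod_cast this
    have hle : 1 - η ≤ upperRelDensity E A := Filter.le_limsup_of_frequently_le hfreq hbdd
    have : δ < 1 - η := by rw [hη]; linarith
    linarith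
  · -- the difference set misses the block of length L starting at t (L-1)
    rintro ⟨L, hL, hsyn⟩
    obtain ⟨L', rfl⟩ : ∃ L', L = L' + 1 := ⟨L - 1, by omega⟩
    obtain ⟨s, ⟨a, ha, b, hb, rfl⟩, hs1, hs2⟩ := hsyn (t L')
    apply ha.2 L'
    refine ⟨ha.1, b, hb.1, ?_, ?_⟩
    · omega
    · push_cast at hs2
      omega

end Pool.Agent.Results.MP_5a03e9_nt.NotSyndetic
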